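import Pool.Agent.GT.StmtsC

/-!
# Squad GT, row C_LOC: local densities
-/

open Finset

namespace Pool.Agent.GT.H2

theorem key {ι : Type} [Fintype ι] [DecidableEq ι] (p : ℕ) (hp : p.Prime) (l : ι → ℤ) (W b : ℕ)
    (c : ℤ) (i : ι) (hl : ¬ (p : ℤ) ∣ l i) (hW : ¬ p ∣ W) (E : Finset (ι → Fin p))
    (hE : ∀ v x, v ∈ E → Function.update v i x ∈ E) :
    (E.filter fun v => (p : ℤ) ∣ W * (c + ∑ j, l j * ((v j : ℕ) : ℤ)) + b).card * p = E.card := by
  have := Fact.mk hp
  have hWz : (W : ZMod p) ≠ 0 := by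
    intro h
    exact hW ((ZMod.natCast_eq_zero_iff W p).1 h)
  have hlz : ((l i : ℤ) : ZMod p) ≠ 0 := by
    intro h
    exact hl ((ZMod.intCast_zmod_eq_zero_iff_dvd (l i) p).1 h)
  have hx : ∀ v : ι → Fin p, ∃ x : Fin p, ∀ y : Fin p,
      ((p : ℤ) ∣ W * (c + ∑ j, l j * ((Function.update v i y j : ℕ) : ℤ)) + b) ↔ y = x := by
    intro v
    set r : ℤ := ∑ j ∈ univ.erase i, l j * ((v j : ℕ) : ℤ) with hr
    set t : ZMod p := (-(b : ZMod p) / W - c - r) / (l i : ℤ) with ht
    refine ⟨⟨t.val, ZMod.val_lt t⟩, fun y => ?_⟩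
    have hsum : ∑ j, l j * ((Function.update v i y j : ℕ) : ℤ) = l i * ((y : ℕ) : ℤ) + r := by
      rw [← Finset.add_sum_erase univ _ (Finset.mem_univ i), Function.update_self]
      congr 1
      refine Finset.sum_congr rfl fun j hj => ?_
      rw [Function.update_of_ne (Finset.ne_of_mem_erase hj)]
    rw [hsum, ← ZMod.intCast_zmod_eq_zero_iff_dvd]
    have e1 : (((W : ℤ) * (c + (l i * ((y : ℕ) : ℤ) + r)) + (b : ℤ) : ℤ) : ZMod p) = 0 ↔
        ((y : ℕ) : ZMod p) = t := by
      push_cast
      rw [ht, eq_div_iff hlz]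
      constructor
      · intro h
        have h2 : (W : ZMod p) * (((y : ℕ) : ZMod p) * (l i : ZMod p)) =
            (W : ZMod p) * (-(b : ZMod p) / W - c - r) := by
          rw [mul_sub, mul_sub, mul_div_cancel₀ _ hWz]
          linear_combination h
        exact mul_left_cancel₀ hWz h2
      · intro h
        have h2 : (W : ZMod p) * (((y : ℕ) : ZMod p) * (l i : ZMod p)) =
            (W : ZMod p) * (-(b : ZMod p) / W - c - r) := by rw [h]
        rw [mul_sub, mul_sub, mul_div_cancel₀ _ hWz] at h2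
        linear_combination h2
    rw [e1]
    constructor
    · intro h
      apply Fin.ext
      change (y : ℕ) = t.val
      rw [← h, ZMod.val_natCast_of_lt y.2]
    · intro h
      rw [h]
      exact ZMod.natCast_zmod_val t
  choose f hf using hx
  have hf2 : ∀ v y, f (Function.update v i y) = f v := by
    intro v y
    apply (hf v _).1
    have h := (hf (Function.update v i y) (f (Function.update v i y))).2 rfl
    rwa [Function.update_idem] at h
  have hcard : ((E.filter fun v => (p : ℤ) ∣ W * (c + ∑ j, l j * ((v j : ℕ) : ℤ)) + b) ×ˢ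
      (univ : Finset (Fin p))).card = E.card := by
    refine Finset.card_nbij' (fun q => Function.update q.1 i q.2)
      (fun v => (Function.update v i (f v), v i)) ?_ ?_ ?_ ?_
    · intro q hq
      rw [Finset.mem_coe, Finset.mem_product, Finset.mem_filter] at hq
      exact hE _ _ hq.1.1
    · intro v hv
      rw [Finset.mem_coe, Finset.mem_product, Finset.mem_filter]
      exact ⟨⟨hE _ _ hv, (hf v (f v)).2 rfl⟩, Finset.mem_univ _⟩
    · intro q hq
      rw [Finset.mem_coe, Finset.mem_product, Finset.mem_filter] at hq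
      obtain ⟨⟨h1, h2⟩, _⟩ := hq
      have h3 : q.1 i = f q.1 := by
        apply (hf q.1 _).1
        rw [Function.update_eq_self]
        exact h2
      have h4 : Function.update (Function.update q.1 i q.2) i (f (Function.update q.1 i q.2)) =
          q.1 := by
        rw [Function.update_idem, hf2, ← h3, Function.update_eq_self]
      have h5 : Function.update q.1 i q.2 i = q.2 := Function.update_self _ _ _
      exact Prod.ext h4 h5
    · intro v _
      change Function.update (Function.update v i (f v)) i (v i) = v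
      rw [Function.update_idem, Function.update_eq_self]
  rwa [Finset.card_product, Finset.card_univ, Fintype.card_fin] at hcard

theorem c_loc : LocStmt := by
  intro σ ι _ _ _ _ B L W b c p hL hp hB hW
  have hp0 : (0 : ℝ) < p := by exact_mod_cast hp.pos
  have hcd : (univ : Finset (ι → Fin p)).card = p ^ Fintype.card ι := by
    rw [Finset.card_univ, Fintype.card_fun, Fintype.card_fin]
  have hdv : ∀ s i, L s i ≠ 0 → ¬ (p : ℤ) ∣ L s i := by
    intro s i h0 h
    have h1 := Int.le_of_dvd (abs_pos.2 h0) ((dvd_abs _ _).2 h)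
    have h2 := hL.1 s i
    have h3 : (B : ℤ) < p := by exact_mod_cast hB
    omega
  have h1 : ∀ s, (univ.filter fun v : ι → Fin p =>
      (p : ℤ) ∣ W * (c s + ∑ j, L s j * ((v j : ℕ) : ℤ)) + b).card * p = p ^ Fintype.card ι := by
    intro s
    obtain ⟨i, hi⟩ := hL.2.1 s
    have h0 : L s i ≠ 0 := by
      rcases hi with h | h <;> rw [h] <;> decide
    rw [key p hp (L s) W b (c s) i (hdv s i h0) hW univ (fun v x _ => Finset.mem_univ _), hcd]
  have hal : ∀ T : Finset σ, al L W b c p T = ((univ.filter fun v : ι → Fin p =>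
      ∀ s ∈ T, (p : ℤ) ∣ W * (c s + ∑ i, L s i * ((v i : ℕ) : ℤ)) + b).card : ℝ) /
        (p : ℝ) ^ Fintype.card ι := by
    intro T
    unfold al
    refine congrArg (fun n : ℕ => (n : ℝ) / (p : ℝ) ^ Fintype.card ι) (congrArg Finset.card ?_)
    ext v
    simp only [Finset.mem_filter]
  refine ⟨?_, ?_, ?_⟩
  · rw [hal]
    have h : (univ.filter fun v : ι → Fin p =>
        ∀ s ∈ (∅ : Finset σ), (p : ℤ) ∣ W * (c s + ∑ i, L s i * ((v i : ℕ) : ℤ)) + b) = univ := by
      apply Finset.filter_true_of_mem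
      intro v _ s hs
      exact absurd hs (Finset.notMem_empty s)
    rw [h, hcd]
    push_cast
    exact div_self (pow_ne_zero _ hp0.ne')
  · intro s
    rw [hal]
    have h : (univ.filter fun v : ι → Fin p =>
        ∀ s' ∈ ({s} : Finset σ), (p : ℤ) ∣ W * (c s' + ∑ i, L s' i * ((v i : ℕ) : ℤ)) + b) =
        univ.filter fun v : ι → Fin p =>
          (p : ℤ) ∣ W * (c s + ∑ j, L s j * ((v j : ℕ) : ℤ)) + b := by
      ext v
      simp only [Finset.mem_filter, Finset.mem_univ, true_and, Finset.mem_singleton, forall_eq]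
    rw [h, div_eq_div_iff (pow_ne_zero _ hp0.ne') hp0.ne', one_mul]
    exact_mod_cast h1 s
  · intro T hT
    refine ⟨by rw [hal]; positivity, ?_⟩
    obtain ⟨s, hs, s', hs', hne⟩ := Finset.one_lt_card.1 (by omega : 1 < T.card)
    obtain ⟨i, hi, hi'⟩ := hL.2.2 s s' hne
    set E : Finset (ι → Fin p) := univ.filter fun v : ι → Fin p =>
      (p : ℤ) ∣ W * (c s' + ∑ j, L s' j * ((v j : ℕ) : ℤ)) + b with hEd
    have hE : ∀ v x, v ∈ E → Function.update v i x ∈ E := by
      intro v x hv
      rw [hEd, Finset.mem_filter] at hv ⊢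
      refine ⟨Finset.mem_univ _, ?_⟩
      have e : ∑ j, L s' j * ((Function.update v i x j : ℕ) : ℤ) =
          ∑ j, L s' j * ((v j : ℕ) : ℤ) := by
        refine Finset.sum_congr rfl fun j _ => ?_
        by_cases hj : j = i
        · rw [hj, hi', zero_mul, zero_mul]
        · rw [Function.update_of_ne hj]
      rw [e]
      exact hv.2
    have h2 := key p hp (L s) W b (c s) i (hdv s i hi) hW E hE
    have h3 := h1 s'
    have h4 : (univ.filter fun v : ι → Fin p =>
        ∀ s ∈ T, (p : ℤ) ∣ W * (c s + ∑ i, L s i * ((v i : ℕ) : ℤ)) + b).card ≤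
        (E.filter fun v => (p : ℤ) ∣ W * (c s + ∑ j, L s j * ((v j : ℕ) : ℤ)) + b).card := by
      apply Finset.card_le_card
      intro v hv
      rw [Finset.mem_filter] at hv
      rw [Finset.mem_filter, hEd, Finset.mem_filter]
      exact ⟨⟨Finset.mem_univ _, hv.2 s' hs'⟩, hv.2 s hs⟩
    rw [hal, div_le_div_iff₀ (pow_pos hp0 _) (pow_pos hp0 _), one_mul]
    have h5 : (univ.filter fun v : ι → Fin p =>
        ∀ s ∈ T, (p : ℤ) ∣ W * (c s + ∑ i, L s i * ((v i : ℕ) : ℤ)) + b).card * p ^ 2 ≤
        p ^ Fintype.card ι := by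
      calc _ ≤ (E.filter fun v =>
            (p : ℤ) ∣ W * (c s + ∑ j, L s j * ((v j : ℕ) : ℤ)) + b).card * p ^ 2 :=
            Nat.mul_le_mul_right _ h4
        _ = p ^ Fintype.card ι := by rw [pow_two, ← mul_assoc, h2, h3]
    exact_mod_cast h5

end Pool.Agent.GT.H2
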